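import Mathlib

/-!
In the language with `0, 1, +` and a predicate for the squares, the sets `{x ≠ 0}`, `{x > 0}` and
`{x ≥ 0}` of rationals are positive existentially definable.
-/

namespace Pool.Agent.Results.MP_cd0533_lc.NonzeroDef

/-- `A` is a finite union of projections of sets cut out by integer linear equations and by
atoms saying that a linear term with natural coefficients is a square: positive existential
definability in the language with `0, 1, +` and the squares. -/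
def PosExDef (A : Set ℚ) : Prop :=
  ∃ (k m e s : ℕ) (α : Fin k → Fin e → ℤ) (β : Fin k → Fin e → Fin m → ℤ)
    (γ : Fin k → Fin e → ℤ) (p : Fin k → Fin s → ℕ) (q : Fin k → Fin s → Fin m → ℕ)
    (r : Fin k → Fin s → ℕ),
    ∀ x : ℚ, x ∈ A ↔ ∃ i : Fin k, ∃ y : Fin m → ℚ,
      (∀ j : Fin e, (α i j : ℚ) * x + (∑ l : Fin m, (β i j l : ℚ) * y l) + (γ i j : ℚ) = 0) ∧
      (∀ j : Fin s, IsSquare ((p i j : ℚ) * x + (∑ l : Fin m, (q i j l : ℚ) * y l) + (r i j : ℚ)))

theorem four_squares {x : ℚ} (hx : 0 ≤ x) : ∃ a b c d : ℚ, a * a + b * b + c * c + d * d = x := by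
  obtain ⟨a, b, c, d, h⟩ := Nat.sum_four_squares (x.num.toNat * x.den)
  have hden : (x.den : ℚ) ≠ 0 := by exact_mod_cast x.den_nz
  have hnum : ((x.num.toNat : ℕ) : ℚ) = (x.num : ℚ) := by
    have h1 : ((x.num.toNat : ℕ) : ℤ) = x.num := Int.toNat_of_nonneg (Rat.num_nonneg.mpr hx)
    exact_mod_cast h1
  have h2 : (a : ℚ) ^ 2 + (b : ℚ) ^ 2 + (c : ℚ) ^ 2 + (d : ℚ) ^ 2 = x.num * x.den := by
    rw [← hnum]
    exact_mod_cast h
  refine ⟨a / x.den, b / x.den, c / x.den, d / x.den, ?_⟩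
  have h3 : x = x.num / x.den := (Rat.num_div_den x).symm
  have h4 : (a : ℚ) / x.den * (a / x.den) + b / x.den * (b / x.den) + c / x.den * (c / x.den) +
      d / x.den * (d / x.den) = ((a : ℚ) ^ 2 + b ^ 2 + c ^ 2 + d ^ 2) / (x.den * x.den) := by
    field_simp
  rw [h4, h2]
  conv_rhs => rw [h3]
  field_simp

theorem exists_near {x : ℚ} (hx : 0 < x) : ∃ u : ℚ, 2 ≤ u * u ∧ u * u ≤ 2 + x := by
  have hx' : (0 : ℝ) < (x : ℝ) := by exact_mod_cast hx
  have h1 : √(2 : ℝ) < √(2 + (x : ℝ)) := Real.sqrt_lt_sqrt (by norm_num) (by linarith)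
  obtain ⟨u, hu1, hu2⟩ := exists_rat_btwn h1
  have h0 : (0 : ℝ) ≤ √2 := Real.sqrt_nonneg _
  have h2 : (2 : ℝ) ≤ (u : ℝ) * u := by
    have h3 : √(2 : ℝ) * √2 = 2 := Real.mul_self_sqrt (by norm_num)
    nlinarith
  have h4 : (u : ℝ) * u ≤ 2 + x := by
    have h3 : √(2 + (x : ℝ)) * √(2 + x) = 2 + x := Real.mul_self_sqrt (by linarith)
    nlinarith
  exact ⟨u, by exact_mod_cast h2, by exact_mod_cast h4⟩

theorem two_not_square : ¬ IsSquare (2 : ℚ) := by
  rintro ⟨u, hu⟩
  have h1 : Irrational √2 := irrational_sqrt_two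
  apply h1
  refine ⟨|u|, ?_⟩
  have h2 : (2 : ℝ) = (u : ℝ) * u := by exact_mod_cast hu
  rw [h2, ← sq, Real.sqrt_sq_eq_abs]
  push_cast
  rfl

/-- The key description of positivity. -/
theorem pos_iff (x : ℚ) : 0 < x ↔ ∃ y : Fin 9 → ℚ, (∀ l, IsSquare (y l)) ∧
    y 1 + y 2 + y 3 + y 4 + y 5 + y 6 + y 7 + y 8 = x ∧
    y 0 + (y 1 + y 2 + y 3 + y 4) - (y 5 + y 6 + y 7 + y 8) = 2 := by
  constructor
  · intro hx
    obtain ⟨u, hu1, hu2⟩ := exists_near hx
    obtain ⟨a, b, c, d, h1⟩ := four_squares (x := (x + 2 - u * u) / 2) (by linarith)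
    obtain ⟨a', b', c', d', h2⟩ := four_squares (x := (x - 2 + u * u) / 2) (by linarith)
    refine ⟨![u * u, a * a, b * b, c * c, d * d, a' * a', b' * b', c' * c', d' * d'], ?_, ?_, ?_⟩
    · intro l
      fin_cases l <;> simp
    · simp
      linarith
    · simp
      linarith
  · rintro ⟨y, hsq, h1, h2⟩
    have hnn : ∀ l, 0 ≤ y l := fun l => by
      obtain ⟨r, hr⟩ := hsq l
      rw [hr]; exact mul_self_nonneg r
    by_contra hx
    have hx' : x ≤ 0 := not_lt.mp hx
    have n1 := hnn 1; have n2 := hnn 2; have n3 := hnn 3; have n4 := hnn 4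
    have n5 := hnn 5; have n6 := hnn 6; have n7 := hnn 7; have n8 := hnn 8
    have h3 : y 0 = 2 := by linarith
    exact two_not_square (h3 ▸ hsq 0)

/-- Coefficients of the two linear equations. -/
def co : Fin 2 → Fin 9 → ℤ := ![![0, 1, 1, 1, 1, 1, 1, 1, 1], ![1, 1, 1, 1, 1, -1, -1, -1, -1]]

theorem sum_co0 (y : Fin 9 → ℚ) : ∑ l : Fin 9, (co 0 l : ℚ) * y l =
    y 1 + y 2 + y 3 + y 4 + y 5 + y 6 + y 7 + y 8 := by
  simp [co, Fin.sum_univ_succ]
  ring_nf

theorem sum_co1 (y : Fin 9 → ℚ) : ∑ l : Fin 9, (co 1 l : ℚ) * y l =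
    y 0 + (y 1 + y 2 + y 3 + y 4) - (y 5 + y 6 + y 7 + y 8) := by
  simp [co, Fin.sum_univ_succ]
  ring_nf

theorem sum_unit (y : Fin 9 → ℚ) (j : Fin 9) :
    ∑ l : Fin 9, ((if l = j then 1 else 0 : ℕ) : ℚ) * y l = y j := by
  simp

/-- The positive rationals, scaled by signs. -/
theorem def_of_signs (k : ℕ) (ε : Fin k → ℤ) :
    PosExDef {x : ℚ | ∃ i : Fin k, 0 < (ε i : ℚ) * x} := by
  refine ⟨k, 9, 2, 9, fun i => ![-ε i, 0], fun _ => co, fun _ => ![0, -2], fun _ _ => 0,
    fun _ j l => if l = j then 1 else 0, fun _ _ => 0, ?_⟩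
  intro x
  rw [Set.mem_setOf_eq]
  apply exists_congr
  intro i
  rw [pos_iff]
  apply exists_congr
  intro y
  constructor
  · rintro ⟨h1, h2, h3⟩
    refine ⟨?_, ?_⟩
    · intro j
      fin_cases j
      · have := sum_co0 y
        simp only [Fin.zero_eta, Matrix.cons_val_zero, Int.cast_neg, Int.cast_zero, add_zero]
        rw [this, h2]; ring
      · have := sum_co1 y
        simp only [Fin.mk_one, Matrix.cons_val_one, Matrix.cons_val_fin_one, Int.cast_zero,
          zero_mul, zero_add, Int.cast_neg, Int.cast_ofNat]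
        rw [this, h3]; ring
    · intro j
      rw [sum_unit]
      simpa using h1 j
  · rintro ⟨h1, h2⟩
    refine ⟨?_, ?_, ?_⟩
    · intro j
      have := h2 j
      rw [sum_unit] at this
      simpa using this
    · have := h1 0
      simp only [Matrix.cons_val_zero, Int.cast_neg, Int.cast_zero, add_zero] at this
      rw [sum_co0] at this
      linarith
    · have := h1 1
      simp only [Matrix.cons_val_one, Matrix.cons_val_fin_one, Int.cast_zero,
          zero_mul, zero_add, Int.cast_neg, Int.cast_ofNat] at this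
      rw [sum_co1] at this
      linarith

/-- The nonzero rationals and the positive rationals are positive existentially definable from
`0, 1, +` and the squares. -/
theorem result : PosExDef {x : ℚ | x ≠ 0} ∧ PosExDef {x : ℚ | 0 < x} := by
  constructor
  · have h := def_of_signs 2 ![1, -1]
    have h1 : {x : ℚ | ∃ i : Fin 2, 0 < ((![1, -1] : Fin 2 → ℤ) i : ℚ) * x} = {x | x ≠ 0} := by
      ext x
      simp only [Set.mem_setOf_eq, Fin.exists_fin_two, Matrix.cons_val_zero, Matrix.cons_val_one,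
        Matrix.cons_val_fin_one, Int.cast_one, one_mul, Int.cast_neg, neg_mul, neg_pos]
      exact ⟨fun h => by rcases h with h | h; exacts [h.ne', h.ne], fun h => (lt_or_gt_of_ne h).symm⟩
    rwa [h1] at h
  · have h := def_of_signs 1 ![1]
    have h1 : {x : ℚ | ∃ i : Fin 1, 0 < ((![1] : Fin 1 → ℤ) i : ℚ) * x} = {x | 0 < x} := by
      ext x
      simp
    rwa [h1] at h

end Pool.Agent.Results.MP_cd0533_lc.NonzeroDef
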